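import Pool.Agent.N179.GR.Defs

/-!
# The variational Hodge conjecture for families with parallel transport: definitions
-/

set_option autoImplicit false

open CategoryTheory

universe u

namespace Pool.Agent.J4H50.VH

section Alg

/-- Isomorphisms `T γ` between the algebras `A s`, for the paths `γ` in the groupoid `S`. -/
structure Sys (K : Type) [Field K] {S : Type} [Groupoid.{0} S] (A : S → Type) [∀ s, Ring (A s)]
    [∀ s, Algebra K (A s)] where
  /-- transport along a path -/
  T : ∀ {s t : S}, (s ⟶ t) → (A s ≃ₐ[K] A t)
  T_id : ∀ (s : S) (a : A s), T (𝟙 s) a = a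
  T_comp : ∀ {r s t : S} (γ : r ⟶ s) (δ : s ⟶ t) (a : A r), T (γ ≫ δ) a = T δ (T γ a)

variable {K : Type} [Field K] {S : Type} [Groupoid.{0} S] {A : S → Type} [∀ s, Ring (A s)]
  [∀ s, Algebra K (A s)] {B : S → Type} [∀ s, Ring (B s)] [∀ s, Algebra K (B s)]

/-- The transport of the element `a` along the path `γ`. -/
def Sys.mv (M : Sys K A) {s t : S} (γ : s ⟶ t) (a : A s) : A t := M.T γ a

/-- The element `c` over `s` is fixed by a subgroup of finite index of the fundamental group of the
base with the base point `s`. -/
def Sys.PotFlat (M : Sys K A) (s : S) (c : A s) : Prop :=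
  ∃ Δ : Subgroup (End s), Δ.FiniteIndex ∧ ∀ g ∈ Δ, M.mv g c = c

/-- The action of the fundamental group with the base point `s`. -/
def Sys.act (M : Sys K A) (s : S) : End s →* (A s ≃ₐ[K] A s) where
  toFun g := M.T g
  map_one' := AlgEquiv.ext fun a => M.T_id s a
  map_mul' g h := AlgEquiv.ext fun a => M.T_comp h g a

/-- The representation of the fundamental group on the algebra over the base point `s`. -/
def Sys.rep [∀ s, FiniteDimensional K (A s)] (M : Sys K A) (s : S) :
    Pool.Agent.N179.GR.S.GRep K (End s) := Pool.Agent.N179.GR.S.algRep (M.act s)

/-- The algebra over the base point `s` is generated by its semi-invariant elements and by the images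
of linear maps from the representations `U a` which are equivariant under a subgroup of finite
index. -/
def Sys.GenBy [∀ s, FiniteDimensional K (A s)] {κ : Type} (M : Sys K A) (s : S)
    (U : κ → Pool.Agent.N179.GR.S.GRep K (End s)) : Prop :=
  Pool.Agent.N179.GR.S.GeneratedAct U (M.act s)

/-- The algebra over the base point `s` is a semisimple representation, it is generated by its
semi-invariant elements and the representation `V`, and its semi-invariant elements are fixed by a
subgroup of finite index. -/
structure Sys.OfType [∀ s, FiniteDimensional K (A s)] (M : Sys K A) (s : S)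
    (V : Pool.Agent.N179.GR.S.GRep K (End s)) : Prop where
  gen : M.GenBy s fun _ : Unit => V
  semisimple : Pool.Agent.N179.GR.S.Semisimple (M.rep s)
  noChar : ∀ c, Pool.Agent.N179.GR.S.SemiInv (M := M.rep s) c → M.PotFlat s c

/-- The transport preserves the subspaces `gr i`, the linear forms `tr` and the sets `R`. -/
structure Sys.Preserves (M : Sys K A) (gr : ∀ s, ℕ → Submodule K (A s)) (tr : ∀ s, A s →ₗ[K] K)
    (R : ∀ s, Set (A s)) : Prop where
  gr_mem : ∀ {s t : S} (γ : s ⟶ t) (i : ℕ) (a : A s), a ∈ gr s i → M.mv γ a ∈ gr t i
  tr_eq : ∀ {s t : S} (γ : s ⟶ t) (a : A s), tr t (M.mv γ a) = tr s a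
  rat_mem : ∀ {s t : S} (γ : s ⟶ t) (a : A s), a ∈ R s → M.mv γ a ∈ R t

/-- The homomorphisms `p s` commute with the transport. -/
def Commutes (M : Sys K A) (N : Sys K B) (p : ∀ s, A s →ₐ[K] B s) : Prop :=
  ∀ {s t : S} (γ : s ⟶ t) (a : A s), N.mv γ (p s a) = p t (M.mv γ a)

/-- If an element of `C s` is fixed by a subgroup of finite index of the fundamental group then its
transport along any path from `s` to `t` is in `C t`. -/
def Sys.Varies (M : Sys K A) (C : ∀ s, Set (A s)) : Prop :=
  ∀ (s t : S) (γ : s ⟶ t), ∀ c ∈ C s, M.PotFlat s c → M.mv γ c ∈ C t

/-- All elements which are fixed by a subgroup of finite index of the fundamental group are linear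
combinations of elements of the sets `C s`. -/
def Sys.FlatIn (M : Sys K A) (C : ∀ s, Set (A s)) : Prop :=
  ∀ (s : S) (c : A s), M.PotFlat s c → c ∈ Submodule.span K (C s)

/-- The elements over `s` which are fixed by a subgroup of finite index of the fundamental group and
which are linear combinations of elements of `C`. -/
def Sys.flatSpan (M : Sys K A) (s : S) (C : Set (A s)) : Set (A s) :=
  {c | M.PotFlat s c ∧ c ∈ Submodule.span K C}

variable {A : Type} [Ring A] [Algebra K A] {B : Type} [Ring B] [Algebra K B] {C : Type} [Ring C]
  [Algebra K C]

/-- The set `R` of elements of `A` is a rational vector space such that the elements `a i ∈ R` in a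
relation `∑ c i • a i = 0` with coefficients `c i ∈ K` which are linearly independent over `ℚ`
vanish. -/
structure IsRational (K : Type) [Field K] [CharZero K] {A : Type} [Ring A] [Algebra K A]
    (R : Set A) : Prop where
  sub_mem : ∀ a ∈ R, ∀ b ∈ R, a - b ∈ R
  smul_mem : ∀ (q : ℚ), ∀ a ∈ R, (q : K) • a ∈ R
  disjoint : ∀ (n : ℕ) (c : Fin n → K) (a : Fin n → A), LinearIndependent ℚ c →
    (∀ i, a i ∈ R) → ∑ i, c i • a i = 0 → ∀ i, a i = 0

/-- The elements of `Z n` are linear combinations of products `p(a) q(b)` with `a ∈ X i`, `b ∈ Y j`
and `i + j = n`. -/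
def Kun (p : A →ₐ[K] C) (q : B →ₐ[K] C) (X : ℕ → Set A) (Y : ℕ → Set B) (Z : ℕ → Set C) : Prop :=
  ∀ n, ∀ z ∈ Z n, z ∈ Submodule.span K
    {x | ∃ i j, i + j = n ∧ ∃ a ∈ X i, ∃ b ∈ Y j, x = p a * q b}

/-- Some element of the set has a nonzero multiple of `1` as image. -/
def HitsOne (f : A →ₗ[K] B) (C : Set A) : Prop := ∃ w ∈ C, ∃ c : K, c ≠ 0 ∧ f w = c • 1

/-- The subspace contains an element `h` with the property `Q` such that the form `tr` does not vanish
on its power with the exponent `n`. -/
def HasPower (G : Submodule K A) (Q : A → Prop) (tr : A →ₗ[K] K) (n : ℕ) : Prop :=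
  ∃ h ∈ G, Q h ∧ tr (h ^ n) ≠ 0

end Alg

open Pool.Agent.H914 Pool.Agent.H914.VarClass Pool.Agent.H914.VarClass.Obj
  Pool.Agent.H914.WeilCohomology Pool.Agent.N179.GR.S

variable {k : Type u} [Field k] {𝒱 : VarClass k} {ops : CycleOps 𝒱}

/-- A rational structure on a Weil cohomology theory with the coefficient field `K`: rational vector
spaces `R X` of rational classes on `X`, such that the map from `K ⊗ R X` to `H(X)` is injective, and
which contain the classes of the algebraic cycles. The example: singular cohomology with coefficients
in `K = ℂ` of complex varieties, `R X` is the cohomology with coefficients in `ℚ`. -/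
structure RatStr (W : WeilCohomology.{u, 0} ops) where
  /-- the rational classes -/
  R : ∀ X : 𝒱.Obj, Set (W.H X)
  rational : ∀ X : 𝒱.Obj, IsRational W.K (R X)
  cl_mem : ∀ (X : 𝒱.Obj) (j : ℕ), algClasses W X j ⊆ R X

/-- A family of varieties over a base whose fundamental groupoid is `S` (the objects of `S` are the
points of the base, the morphisms are the homotopy classes of paths): the fibres `X s`, and the
parallel transport along the paths, which consists of isomorphisms of cohomology algebras and
preserves the degrees, the orientations and the rational classes. -/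
structure Fam {W : WeilCohomology.{u, 0} ops} (ℛ : RatStr W) (S : Type) [Groupoid.{0} S] where
  /-- the fibres -/
  X : S → 𝒱.Obj
  /-- parallel transport -/
  sys : Sys W.K fun s => W.H (X s)
  pres : sys.Preserves (fun s => W.gr (X s)) (fun s => W.tr (X s)) fun s => ℛ.R (X s)

variable {W : WeilCohomology.{u, 0} ops} {ℛ : RatStr W} {S : Type} [Groupoid.{0} S]

/-- **The variational Hodge conjecture in codimension `p`** for the family and for its base changes to
all finite étale coverings of the base: let `c` be the class of a cycle of codimension `p` with
rational coefficients on the fibre over `s`, fixed by a subgroup of finite index of the fundamental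
group; then the parallel transport of `c` along any path from `s` to `t` is the class of a cycle of
codimension `p` with rational coefficients on the fibre over `t`. -/
def Fam.VHC (F : Fam ℛ S) (p : ℕ) : Prop := F.sys.Varies fun s => algClasses W (F.X s) p

/-- The monodromy representation on the cohomology of the fibre over `s`. -/
def Fam.coh (F : Fam ℛ S) (s : S) : GRep W.K (End s) := F.sys.rep s

/-- The classes of degree `2 p` on the fibre over `s` which are fixed by a subgroup of finite index of
the fundamental group, and which are linear combinations, with coefficients in the coefficient field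
of the cohomology, of classes of algebraic cycles of codimension `p`. -/
def Fam.flatAlg (F : Fam ℛ S) (s : S) (p : ℕ) : Set (W.H (F.X s)) :=
  F.sys.flatSpan s (algClasses W (F.X s) p)

/-- The classes of the cycles on the fibre over `s`. -/
def Fam.cycles (F : Fam ℛ S) (s : S) : Set (W.H (F.X s)) := ⋃ p, algClasses W (F.X s) p

/-- The family `G` is dominated by `F`: there are morphisms `f s` of the fibres, compatible with the
parallel transport, such that the direct image of the class of some cycle on the fibre of `F` is a
nonzero multiple of the fundamental class of the fibre of `G`. (This is so if the `f s` are the fibres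
of a surjective morphism of projective families over the base.) -/
def Dominates (F G : Fam ℛ S) : Prop :=
  ∃ f : ∀ s, F.X s ⟶ G.X s, Commutes G.sys F.sys (fun s => W.map (f s)) ∧
    ∀ s, HitsOne (W.push (f s)) (F.cycles s)

/-- A parallel transport on the products of the fibres of `P` and `Y`, compatible with the
projections: the fibre product of the families over the base. -/
structure ProdTrans (P Y : Fam ℛ S) where
  /-- parallel transport -/
  sys : Sys W.K fun s => W.H ((P.X s).prod (Y.X s))
  pres : sys.Preserves (fun s => W.gr ((P.X s).prod (Y.X s)))
    (fun s => W.tr ((P.X s).prod (Y.X s))) fun s => ℛ.R ((P.X s).prod (Y.X s))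
  fst : Commutes P.sys sys fun s => W.map (fst (P.X s) (Y.X s))
  snd : Commutes Y.sys sys fun s => W.map (snd (P.X s) (Y.X s))

/-- The fibre product of `P` and `Y` over the base. -/
noncomputable abbrev prodFam (P Y : Fam ℛ S) (υ : ProdTrans P Y) : Fam ℛ S :=
  ⟨fun s => (P.X s).prod (Y.X s), υ.sys, υ.pres⟩

/-- The family `Y` is the fibre product `P 1 × (P 2 × ( ⋯ × Z))` over the base for the list `L` of the
pairs `(i a, P a)`. -/
inductive Tower {ι : Type} (Z : Fam ℛ S) : List (ι × Fam ℛ S) → Fam ℛ S → Prop
  | base : Tower Z [] Z
  | step {L : List (ι × Fam ℛ S)} {Y : Fam ℛ S} (i : ι) (P : Fam ℛ S) (υ : ProdTrans P Y) :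
      Tower Z L Y → Tower Z ((i, P) :: L) (prodFam P Y υ)

/-- **The Künneth formula for the flat algebraic classes**: on all fibres of `P × Y` the classes of
algebraic cycles of codimension `n` which are fixed by a subgroup of finite index are linear
combinations of the products of such classes of codimension `i` on the fibre of `P` and `j` on the
fibre of `Y`, where `i + j = n`. -/
def FlatKunneth (P Y : Fam ℛ S) (υ : ProdTrans P Y) : Prop :=
  ∀ s, Kun (W.map (fst (P.X s) (Y.X s))) (W.map (snd (P.X s) (Y.X s))) (P.flatAlg s)
    (Y.flatAlg s) ((prodFam P Y υ).flatAlg s)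

/-- The factor `P`: at the point `s₁` its cohomology is semisimple and generated by the semi-invariant
classes and the representation `V` of the fundamental group; all semi-invariant classes are fixed by
a subgroup of finite index (for families of projective varieties the semisimplicity and this
property are theorems of Deligne); there is a flat class `h` of degree two with `∫ h ^ n ≠ 0`, where
`n` is the dimension (the class of a relatively ample divisor); and all classes on the fibres of `P`
which are fixed by a subgroup of finite index are combinations of classes of algebraic cycles. -/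
structure GoodFactor (s₁ : S) (V : GRep W.K (End s₁)) (P : Fam ℛ S) : Prop where
  ofType : P.sys.OfType s₁ V
  polarized : HasPower (W.gr (P.X s₁) 2) (P.sys.PotFlat s₁) (W.tr (P.X s₁)) (P.X s₁).dim
  algebraic : P.sys.FlatIn P.cycles

/-- The indices in the list are pairwise different and not in `E`, and the families in the list are
good factors for the corresponding members of the family `V` of representations. -/
def GoodList (s₁ : S) {ι : Type} (V : ι → GRep W.K (End s₁)) (E : Set ι)
    (L : List (ι × Fam ℛ S)) : Prop :=
  (L.map Prod.fst).Nodup ∧ ∀ x ∈ L, x.1 ∉ E ∧ GoodFactor s₁ (V x.1) x.2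

/-- The sum of the relative dimensions of the families in the list. -/
def relDim (s₁ : S) {ι : Type} (L : List (ι × Fam ℛ S)) : ℕ :=
  (L.map fun x => (x.2.X s₁).dim).sum

/-- The theorem on the products `P 1 × (P 2 × ( ⋯ × Z))` without indices in `E`.

* The Künneth formula for the flat algebraic classes.
* The variational Hodge conjecture in codimension `p` for the product is equivalent to the variational
  Hodge conjecture for `Z` in all codimensions `j` with `p - d ≤ j ≤ p`, where `d` is the relative
  dimension of `P 1 × P 2 × ⋯`.
* If the latter is true, then the variational Hodge conjecture in codimension `p` is true for every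
  family dominated by the product. -/
structure Outside (s₁ : S) {ι : Type} (V : ι → GRep W.K (End s₁)) (Z : Fam ℛ S) (E : Set ι) :
    Prop where
  kunneth : ∀ (i : ι) (P Y : Fam ℛ S) (L : List (ι × Fam ℛ S)) (υ : ProdTrans P Y), Tower Z L Y →
    GoodList s₁ V E ((i, P) :: L) → FlatKunneth P Y υ
  vhc : ∀ (L : List (ι × Fam ℛ S)) (Y : Fam ℛ S), Tower Z L Y → GoodList s₁ V E L → ∀ p,
    (Y.VHC p ↔ ∀ j ≤ p, p ≤ j + relDim s₁ L → Z.VHC j)
  dominated : ∀ (L : List (ι × Fam ℛ S)) (Y : Fam ℛ S), Tower Z L Y → GoodList s₁ V E L →
    ∀ G : Fam ℛ S, Dominates Y G → ∀ p, (∀ j ≤ p, p ≤ j + relDim s₁ L → Z.VHC j) → G.VHC p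

/-- Every operator on `M` which commutes with the elements of the group that act on `U` by scalars is a
scalar. (For instance `M` is irreducible, and some element of the group acts on `U` by a scalar and on
`M` by a pseudo-reflection or by a transvection, like the local monodromy at a divisor of the
discriminant with fibres with one node.) -/
def ScalarCommutant {K : Type} [Field K] {Γ : Type} [Group Γ] (M U : GRep K Γ) : Prop :=
  ∀ x : Lin M M, (∀ g : Γ, (∃ c : K, ∀ u, U.ap g u = c • u) →
    ∀ v, x.ev (M.ap g v) = M.ap g (x.ev v)) → ∃ c : K, ∀ v, x.ev v = c • v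

/-- `E` is a set of exceptional indices for the family `Z` and the family `V` of representations.

* It is finite, with at most `(b - b') / 2` elements, where `b` is the sum of the Betti numbers of the
  fibre of `Z` and `b'` is the dimension of the span of the semi-invariant classes.
* It is empty if all classes on the fibre of `Z` are fixed by a subgroup of finite index (for instance
  if `Z` is constant).
* It does not contain `i` if the commutant on `V i` of the elements of the fundamental group which act
  by scalars on the cohomology of `Z` is scalar.
* The theorem `Outside` is true, without the indices in `E` and in `M`, for all bases `Z''` which are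
  products of factors in a list `M`, which are generated by members of the family `V` with arbitrary
  indices, and of a family `Z'` which is generated by the cohomology of `Z` (for instance `Z' = Z`, the
  fibre powers of `Z` and their products with constant families). -/
structure ExceptionalSet (s₁ : S) {ι : Type} (V : ι → GRep W.K (End s₁)) (Z : Fam ℛ S)
    (E : Set ι) : Prop where
  finite : E.Finite
  card : 2 * E.ncard + (semiSpan (Z.coh s₁)).dim ≤ dim (Z.coh s₁)
  empty : (∀ c, Z.sys.PotFlat s₁ c) → E = ∅
  commutant : ∀ i, ScalarCommutant (V i) (Z.coh s₁) → i ∉ E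
  outside : ∀ (Z' Z'' : Fam ℛ S) (M : List (ι × Fam ℛ S)),
    Z'.sys.GenBy s₁ (fun _ : Unit => Z.coh s₁) →
    (∀ x ∈ M, x.2.sys.GenBy s₁ fun _ : Unit => V x.1) → Tower Z' M Z'' →
    Outside s₁ V Z'' (E ∪ {i | i ∈ M.map Prod.fst})

end Pool.Agent.J4H50.VH
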