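import Pool.Agent.J4H50.VH.Main

/-!
# The variational Hodge conjecture for products with members of an independent family
-/

set_option autoImplicit false
set_option linter.unusedSectionVars false

open CategoryTheory AlgebraicGeometry

universe u

namespace Pool.Agent.J4H50.VH

open Module Pool.Agent.H914 Pool.Agent.H914.VarClass Pool.Agent.H914.VarClass.Obj
  Pool.Agent.H914.WeilCohomology Pool.Agent.TH125.Gal Pool.Agent.N179.GR Pool.Agent.N179.GR.S
  Pool.Agent.H281R3.HT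

noncomputable section

section rep

variable {K : Type} [Field K] {Γ : Type} [Group Γ]

/-- pieces commute with the elements which act by scalars -/
theorem piece_commutant {M U : GRep K Γ} {s : Sub (endo M)} (h : Piece M U s) :
    ¬ScalarCommutant M U := by
  intro hs'
  have hs : ∀ x : Op M, (∀ g : Γ, (∃ c : K, ∀ u, U.ap g u = c • u) → conj M g x = x) →
      ∃ c : K, x = c • (LinearMap.id : M.V →ₗ[K] M.V) := by
    intro x hx
    obtain ⟨c, hc⟩ := hs' x fun g hg v => by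
      have h1 := LinearMap.congr_fun (hx g hg) (M.act g v)
      have h2 : M.act g ((show M.V →ₗ[K] M.V from x) (M.act g⁻¹ (M.act g v))) =
          (show M.V →ₗ[K] M.V from x) (M.act g v) := h1
      rw [← M.mul, inv_mul_cancel, M.one] at h2
      exact h2.symm
    exact ⟨c, LinearMap.ext hc⟩
  obtain ⟨A, Φ, hA, hΦ, hsur⟩ := h.quot
  have h1 : ∀ y, s.Has y → ∀ g : Γ, (∃ c : K, ∀ u, U.ap g u = c • u) → conj M g y = y := by
    intro y hy g ⟨c, hc⟩
    obtain ⟨x, hx, rfl⟩ := (hsur y).1 hy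
    have h2 : (endo U).ap g x = x := by
      refine LinearMap.ext fun v => ?_
      change U.act g ((show U.V →ₗ[K] U.V from x) (U.act g⁻¹ v)) = (show U.V →ₗ[K] U.V from x) v
      have h3 : U.act g ((show U.V →ₗ[K] U.V from x) (U.act g⁻¹ v)) =
          c • (show U.V →ₗ[K] U.V from x) (U.act g⁻¹ v) := hc _
      have h4 : c • U.act g⁻¹ v = v := by
        have h5 : U.act g (U.act g⁻¹ v) = c • U.act g⁻¹ v := hc _
        rw [← h5, ← U.mul, mul_inv_cancel, U.one]
      rw [h3, ← map_smul, h4]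
    have h3 := hΦ g x hx
    rw [h2] at h3
    exact h3.symm
  have h2 : (show Submodule K (M.V →ₗ[K] M.V) from s) ≤
      Submodule.span K {(LinearMap.id : M.V →ₗ[K] M.V)} := by
    intro y hy
    obtain ⟨c, rfl⟩ := hs y (h1 y hy)
    exact Submodule.smul_mem _ _ (Submodule.mem_span_singleton_self _)
  have h3 : finrank K (show Submodule K (M.V →ₗ[K] M.V) from s) ≤ 1 :=
    (Submodule.finrank_mono h2).trans ((finrank_span_le_card _).trans (by simp))
  have h4 := h.three
  unfold Sub.dim at h4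
  have h5 : (3 : ℕ) ≤ finrank K (show Submodule K (M.V →ₗ[K] M.V) from s) := h4
  omega

end rep

variable {k : Type u} [Field k] {𝒱 : VarClass k} {ops : CycleOps 𝒱}
  {W : WeilCohomology.{u, 0} ops} {ℛ : RatStr W} {S : Type} [Groupoid.{0} S]

/-- the generation of products -/
theorem gen_prod {κ : Type} {s₁ : S} {U : κ → GRep W.K (End s₁)} {P Y : Fam ℛ S}
    (υ : ProdTrans P Y) (hP : P.sys.GenBy s₁ U) (hY : Y.sys.GenBy s₁ U) :
    (prodFam P Y υ).sys.GenBy s₁ U := by
  let A : Subalgebra W.K (W.H ((P.X s₁).prod (Y.X s₁))) :=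
    Algebra.adjoin W.K (semis (υ.sys.act s₁) ∪ images U (υ.sys.act s₁))
  have hP' : Algebra.adjoin W.K (semis (P.sys.act s₁) ∪ images U (P.sys.act s₁)) = ⊤ := hP
  have hY' : Algebra.adjoin W.K (semis (Y.sys.act s₁) ∪ images U (Y.sys.act s₁)) = ⊤ := hY
  have h1 : ∀ a : W.H (P.X s₁), W.map (fst (P.X s₁) (Y.X s₁)) a ∈ A := by
    have h2 : Algebra.adjoin W.K (semis (P.sys.act s₁) ∪ images U (P.sys.act s₁)) ≤
        A.comap (W.map (fst (P.X s₁) (Y.X s₁))) := by
      refine Algebra.adjoin_le ?_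
      rintro x (hx | ⟨a, f, v, hf, rfl⟩)
      · refine Algebra.subset_adjoin (Or.inl ?_)
        obtain ⟨Δ, hΔ, hx⟩ := hx
        refine ⟨Δ, hΔ, fun g hg => ?_⟩
        obtain ⟨c, hc⟩ := hx g hg
        have hc' : P.T g x = c • x := hc
        refine ⟨c, (fst_T υ g x).trans ?_⟩
        rw [hc', map_smul]
        rfl
      · refine Algebra.subset_adjoin (Or.inr ⟨a, (W.map (fst (P.X s₁) (Y.X s₁))).toLinearMap ∘ₗ
          (show (U a).V →ₗ[W.K] W.H (P.X s₁) from f), v, ?_, rfl⟩)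
        obtain ⟨Δ, hΔ, hf⟩ := hf
        refine ⟨Δ, hΔ, fun g hg v => ?_⟩
        have h3 : (show (U a).V →ₗ[W.K] W.H (P.X s₁) from f) ((U a).ap g v) =
          P.T g ((show (U a).V →ₗ[W.K] W.H (P.X s₁) from f) v) := hf g hg v
        exact (congrArg (W.map (fst (P.X s₁) (Y.X s₁))) h3).trans (fst_T υ g _).symm
    intro a
    exact h2 (by rw [hP']; exact Algebra.mem_top)
  have h1' : ∀ a : W.H (Y.X s₁), W.map (snd (P.X s₁) (Y.X s₁)) a ∈ A := by
    have h2 : Algebra.adjoin W.K (semis (Y.sys.act s₁) ∪ images U (Y.sys.act s₁)) ≤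
        A.comap (W.map (snd (P.X s₁) (Y.X s₁))) := by
      refine Algebra.adjoin_le ?_
      rintro x (hx | ⟨a, f, v, hf, rfl⟩)
      · refine Algebra.subset_adjoin (Or.inl ?_)
        obtain ⟨Δ, hΔ, hx⟩ := hx
        refine ⟨Δ, hΔ, fun g hg => ?_⟩
        obtain ⟨c, hc⟩ := hx g hg
        have hc' : Y.T g x = c • x := hc
        refine ⟨c, (snd_T υ g x).trans ?_⟩
        rw [hc', map_smul]
        rfl
      · refine Algebra.subset_adjoin (Or.inr ⟨a, (W.map (snd (P.X s₁) (Y.X s₁))).toLinearMap ∘ₗ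
          (show (U a).V →ₗ[W.K] W.H (Y.X s₁) from f), v, ?_, rfl⟩)
        obtain ⟨Δ, hΔ, hf⟩ := hf
        refine ⟨Δ, hΔ, fun g hg v => ?_⟩
        have h3 : (show (U a).V →ₗ[W.K] W.H (Y.X s₁) from f) ((U a).ap g v) =
          Y.T g ((show (U a).V →ₗ[W.K] W.H (Y.X s₁) from f) v) := hf g hg v
        exact (congrArg (W.map (snd (P.X s₁) (Y.X s₁))) h3).trans (snd_T υ g _).symm
    intro a
    exact h2 (by rw [hY']; exact Algebra.mem_top)
  change A = ⊤
  rw [eq_top_iff]
  intro z _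
  exact W.kunneth_induction (p := fun z => z ∈ A) (fun a b ha hb => A.add_mem ha hb)
    (fun i j a _ b _ => A.mul_mem (h1 a) (h1' b)) z

/-- every family is generated by its own cohomology -/
theorem gen_self (s₁ : S) (Z : Fam ℛ S) : Z.sys.GenBy s₁ fun _ : Unit => Z.coh s₁ := by
  have h1 : images (fun _ : Unit => Z.coh s₁) (Z.sys.act s₁) = Set.univ := by
    refine Set.eq_univ_of_forall fun x => ⟨(), (LinearMap.id : W.H (Z.X s₁) →ₗ[W.K] W.H (Z.X s₁)),
      x, ⟨⊤, inferInstance, fun g _ y => rfl⟩, rfl⟩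
  change Algebra.adjoin W.K (_ ∪ images (fun _ : Unit => Z.coh s₁) (Z.sys.act s₁)) = ⊤
  rw [h1, Set.union_univ]
  exact Algebra.adjoin_univ _ _

/-- more generators -/
theorem gen_mono {κ κ' : Type} {s₁ : S} {U : κ → GRep W.K (End s₁)} {U' : κ' → GRep W.K (End s₁)}
    (h : ∀ a, ∃ b, U' b = U a) {Y : Fam ℛ S} (hY : Y.sys.GenBy s₁ U) : Y.sys.GenBy s₁ U' := by
  change Algebra.adjoin W.K (semis (Y.sys.act s₁) ∪ images U' (Y.sys.act s₁)) = ⊤
  have hY' : Algebra.adjoin W.K (semis (Y.sys.act s₁) ∪ images U (Y.sys.act s₁)) = ⊤ := hY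
  rw [eq_top_iff, ← hY']
  refine Algebra.adjoin_mono (Set.union_subset_union le_rfl ?_)
  rintro x ⟨a, f, v, hf, rfl⟩
  obtain ⟨b, hb⟩ := h a
  revert f v
  rw [← hb]
  intro f v hf
  exact ⟨b, f, v, hf, rfl⟩

theorem gen_tower {κ ι : Type} {s₁ : S} {U : κ → GRep W.K (End s₁)} {V : ι → GRep W.K (End s₁)}
    {Z Y : Fam ℛ S} {M : List (ι × Fam ℛ S)} (hY : Tower Z M Y) (hZ : Z.sys.GenBy s₁ U) :
      (∀ x ∈ M, (∃ a, U a = V x.1) ∧ x.2.sys.GenBy s₁ fun _ : Unit => V x.1) →
      Y.sys.GenBy s₁ U := by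
  induction hY with
  | base => exact fun _ => hZ
  | @step L Y i P υ hT ih =>
    intro h
    have h1 := h (i, P) List.mem_cons_self
    exact gen_prod υ (gen_mono (fun _ => h1.1) h1.2) (ih fun y hy => h y (List.mem_cons_of_mem _ hy))

/-- **The theorem.** -/
theorem final (hK : Nonempty (W.K ≃+* ℂ)) (ℛ : RatStr W) {S : Type} [Groupoid.{0} S] (s₁ : S)
    (hconn : ∀ t : S, Nonempty (s₁ ⟶ t)) {ι : Type} {V : ι → GRep W.K (End s₁)}
    (hV : Family V) (Z : Fam ℛ S) : ∃ E : Set ι, ExceptionalSet s₁ V Z E := by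
  obtain ⟨e⟩ := hK
  have halg : IsAlgClosed W.K := IsAlgClosed.of_ringEquiv ℂ W.K e.symm
  have hex := exceptional e hV (Z.coh s₁)
  have hcard : 2 * (Exc V (Z.coh s₁)).ncard + (semiSpan (Z.coh s₁)).dim ≤
      Pool.Agent.N179.GR.S.dim (Z.coh s₁) := by
    refine hex.card_form
      ⟨(LinearMap.mul W.K (W.H (Z.X s₁))).compr₂ (W.tr (Z.X s₁)), fun x hx =>
        W.nondeg x fun y => hx y, 1, fun g (x y : W.H (Z.X s₁)) => ?_⟩
    have h1 := Z.T_tr g (x * y)
    rw [map_mul] at h1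
    rw [MonoidHom.one_apply, Units.val_one, one_mul]
    exact h1
  refine ⟨Exc V (Z.coh s₁), hex.finite, hcard, ?_, ?_, ?_⟩
  · intro hflat
    have h1 : {x | SemiInv (M := Z.coh s₁) x} = Set.univ := by
      refine Set.eq_univ_of_forall fun x => ?_
      obtain ⟨Δ, hΔ, hx⟩ := hflat x
      exact ⟨Δ, hΔ, fun g hg => ⟨1, by rw [one_smul]; exact hx g hg⟩⟩
    have h2 : (semiSpan (Z.coh s₁)).dim = Pool.Agent.N179.GR.S.dim (Z.coh s₁) := by
      unfold semiSpan Sub.dim Pool.Agent.N179.GR.S.dim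
      rw [h1]
      change finrank W.K (Submodule.span W.K (Set.univ : Set (W.H (Z.X s₁)))) =
        finrank W.K (W.H (Z.X s₁))
      rw [Submodule.span_univ, finrank_top]
    exact (Set.ncard_eq_zero hex.finite).1 (by omega)
  · intro i hc hi
    obtain ⟨s, hs, -⟩ := hex.pieces
    exact piece_commutant (hs i hi) hc
  · intro Z' Z'' M hZ' hM hT
    let U : Fin (M.length + 1) → GRep W.K (End s₁) :=
      Fin.cons (Z.coh s₁) fun a : Fin M.length => V (M.get a).1
    refine outside hconn (U := U) ?_ (fun i _ j _ hij => hV.pair hij.symm) ?_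
    · intro i hi a
      refine Fin.cases ?_ (fun a => ?_) a
      · by_contra h
        exact hi (Or.inl h)
      · refine hV.pair fun h => hi (Or.inr ?_)
        rw [h]
        exact List.mem_map.2 ⟨M.get a, List.get_mem M a, rfl⟩
    · have hU0 : U 0 = Z.coh s₁ := Fin.cons_zero _ _
      have hU1 : ∀ a : Fin M.length, U a.succ = V (M.get a).1 := fun a => Fin.cons_succ _ _ a
      have h0 : Z'.sys.GenBy s₁ U :=
        gen_mono (U := fun _ : Unit => Z.coh s₁) (U' := U) (fun _ => ⟨0, hU0⟩) hZ'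
      refine gen_tower (V := V) hT h0 fun x hx => ⟨?_, hM x hx⟩
      obtain ⟨a, ha⟩ := List.get_of_mem hx
      exact ⟨a.succ, by rw [hU1, ha]⟩

end

end Pool.Agent.J4H50.VH
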