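import Pool.Agent.J4H50.VH.Rat

/-!
# Potentially flat classes
-/

set_option autoImplicit false
set_option linter.unusedSectionVars false

open CategoryTheory AlgebraicGeometry

universe u

namespace Pool.Agent.J4H50.VH

open Module Pool.Agent.H914 Pool.Agent.H914.VarClass Pool.Agent.H914.VarClass.Obj
  Pool.Agent.H914.WeilCohomology Pool.Agent.TH125.Gal Pool.Agent.N179.GR.S
  Pool.Agent.H281R3.HT

noncomputable section

variable {k : Type u} [Field k] {𝒱 : VarClass k} {ops : CycleOps 𝒱}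
  {W : WeilCohomology.{u, 0} ops} {ℛ : RatStr W} {S : Type} [Groupoid.{0} S]

/-- transport -/
abbrev Fam.T (F : Fam ℛ S) {s t : S} (γ : s ⟶ t) : W.H (F.X s) ≃ₐ[W.K] W.H (F.X t) := F.sys.T γ

theorem Fam.T_id (F : Fam ℛ S) (s : S) (a : W.H (F.X s)) : F.T (𝟙 s) a = a := F.sys.T_id s a

theorem Fam.T_comp (F : Fam ℛ S) {r s t : S} (γ : r ⟶ s) (δ : s ⟶ t) (a : W.H (F.X r)) :
    F.T (γ ≫ δ) a = F.T δ (F.T γ a) := F.sys.T_comp γ δ a

theorem Fam.T_gr (F : Fam ℛ S) {s t : S} (γ : s ⟶ t) (i : ℕ) (a : W.H (F.X s))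
    (ha : a ∈ W.gr (F.X s) i) : F.T γ a ∈ W.gr (F.X t) i := F.pres.gr_mem γ i a ha

theorem Fam.T_tr (F : Fam ℛ S) {s t : S} (γ : s ⟶ t) (a : W.H (F.X s)) :
    W.tr (F.X t) (F.T γ a) = W.tr (F.X s) a := F.pres.tr_eq γ a

theorem Fam.T_rat (F : Fam ℛ S) {s t : S} (γ : s ⟶ t) (a : W.H (F.X s)) (ha : a ∈ ℛ.R (F.X s)) :
    F.T γ a ∈ ℛ.R (F.X t) := F.pres.rat_mem γ a ha

/-- potentially flat classes -/
def Fam.PF (F : Fam ℛ S) (s : S) (c : W.H (F.X s)) : Prop :=
  ∃ Δ : Subgroup (End s), Δ.FiniteIndex ∧ ∀ g ∈ Δ, F.T g c = c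

theorem Fam.pf_iff {F : Fam ℛ S} {s : S} {c : W.H (F.X s)} : F.PF s c ↔ F.sys.PotFlat s c := Iff.rfl

/-- The potentially flat classes on the fibre over `s`. -/
def potSub (F : Fam ℛ S) (s : S) : Submodule W.K (W.H (F.X s)) where
  carrier := {c | F.PF s c}
  add_mem' := by
    rintro a b ⟨Δ, hΔ, ha⟩ ⟨Δ', hΔ', hb⟩
    exact ⟨Δ ⊓ Δ', inferInstance, fun g hg => by rw [map_add, ha g hg.1, hb g hg.2]⟩
  zero_mem' := ⟨⊤, inferInstance, fun g _ => map_zero _⟩
  smul_mem' := by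
    rintro q a ⟨Δ, hΔ, ha⟩
    exact ⟨Δ, hΔ, fun g hg => by rw [map_smul, ha g hg]⟩

theorem mem_potSub {F : Fam ℛ S} {s : S} {c : W.H (F.X s)} : c ∈ potSub F s ↔ F.PF s c :=
  Iff.rfl

theorem span_pot (F : Fam ℛ S) (s : S) :
    Submodule.span W.K {x | F.PF s x} = potSub F s := Submodule.span_eq (potSub F s)

theorem T_inv (F : Fam ℛ S) {s t : S} (γ : s ⟶ t) (a : W.H (F.X s)) :
    F.T (Groupoid.inv γ) (F.T γ a) = a := by
  rw [← F.T_comp, Groupoid.comp_inv, F.T_id]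

theorem T_inv' (F : Fam ℛ S) {s t : S} (γ : s ⟶ t) (a : W.H (F.X t)) :
    F.T γ (F.T (Groupoid.inv γ) a) = a := by
  rw [← F.T_comp, Groupoid.inv_comp, F.T_id]

/-- the conjugation by a path -/
def conjPath {s t : S} (γ : s ⟶ t) : End t →* End s where
  toFun g := γ ≫ g ≫ Groupoid.inv γ
  map_one' := by
    change γ ≫ 𝟙 t ≫ Groupoid.inv γ = 𝟙 s
    rw [Category.id_comp, Groupoid.comp_inv]
  map_mul' g h := by
    change γ ≫ (h ≫ g) ≫ Groupoid.inv γ =
      (γ ≫ h ≫ Groupoid.inv γ) ≫ (γ ≫ g ≫ Groupoid.inv γ)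
    simp only [Category.assoc]
    rw [← Category.assoc (Groupoid.inv γ) γ, Groupoid.inv_comp, Category.id_comp]

theorem pot_T {F : Fam ℛ S} {s t : S} (γ : s ⟶ t) {c : W.H (F.X s)} (hc : F.PF s c) :
    F.PF t (F.T γ c) := by
  obtain ⟨Δ, hΔ, h⟩ := hc
  have hfin : (Δ.comap (conjPath γ)).FiniteIndex := by
    rw [Subgroup.finiteIndex_iff, Subgroup.index_comap]
    exact (Subgroup.isFiniteRelIndex_of_finiteIndex (H := Δ)
      (K := (conjPath γ).range)).relIndex_ne_zero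
  refine ⟨Δ.comap (conjPath γ), hfin, fun g hg => ?_⟩
  have h1 : F.T (γ ≫ g ≫ Groupoid.inv γ) c = c := h _ hg
  rw [F.T_comp, F.T_comp] at h1
  have h2 := congrArg (F.T γ) h1
  rwa [T_inv'] at h2

theorem pot_mul {F : Fam ℛ S} {s : S} {a b : W.H (F.X s)} (ha : F.PF s a)
    (hb : F.PF s b) : F.PF s (a * b) := by
  obtain ⟨Δ, hΔ, ha⟩ := ha
  obtain ⟨Δ', hΔ', hb⟩ := hb
  exact ⟨Δ ⊓ Δ', inferInstance, fun g hg => by rw [map_mul, ha g hg.1, hb g hg.2]⟩

/-- one subgroup for all potentially flat classes -/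
theorem exists_fix (F : Fam ℛ S) (s : S) : ∃ Δ : Subgroup (End s), Δ.FiniteIndex ∧
    ∀ g ∈ Δ, ∀ c ∈ potSub F s, F.T g c = c := by
  classical
  let b := Module.finBasis W.K (potSub F s)
  choose Δ hΔ h using fun i => (b i).2
  have hfin : (⨅ i, Δ i).FiniteIndex := Subgroup.finiteIndex_iInf fun i => hΔ i
  refine ⟨⨅ i, Δ i, hfin, fun g hg c hc => ?_⟩
  have h1 := congrArg (Submodule.subtype _) (b.sum_repr ⟨c, hc⟩)
  rw [map_sum] at h1
  have h2 : (Submodule.subtype (potSub F s)) ⟨c, hc⟩ = c := rfl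
  rw [h2] at h1
  rw [← h1, map_sum]
  refine Finset.sum_congr rfl fun i _ => ?_
  rw [map_smul, Submodule.subtype_apply, map_smul, h i g (Subgroup.mem_iInf.1 hg i)]

theorem fst_T {F G : Fam ℛ S} (υ : ProdTrans F G) {s t : S} (γ : s ⟶ t) (a : W.H (F.X s)) :
    (prodFam F G υ).T γ (W.map (fst (F.X s) (G.X s)) a) = W.map (fst (F.X t) (G.X t)) (F.T γ a) :=
  υ.fst γ a

theorem snd_T {F G : Fam ℛ S} (υ : ProdTrans F G) {s t : S} (γ : s ⟶ t) (a : W.H (G.X s)) :
    (prodFam F G υ).T γ (W.map (snd (F.X s) (G.X s)) a) = W.map (snd (F.X t) (G.X t)) (G.T γ a) :=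
  υ.snd γ a

theorem pot_fst {F G : Fam ℛ S} (υ : ProdTrans F G) {s : S} {a : W.H (F.X s)} (ha : F.PF s a) :
    (prodFam F G υ).PF s (W.map (fst (F.X s) (G.X s)) a) := by
  obtain ⟨Δ, hΔ, ha⟩ := ha
  exact ⟨Δ, hΔ, fun g hg => (fst_T υ g a).trans (by rw [ha g hg])⟩

theorem pot_snd {F G : Fam ℛ S} (υ : ProdTrans F G) {s : S} {a : W.H (G.X s)} (ha : G.PF s a) :
    (prodFam F G υ).PF s (W.map (snd (F.X s) (G.X s)) a) := by
  obtain ⟨Δ, hΔ, ha⟩ := ha
  exact ⟨Δ, hΔ, fun g hg => (snd_T υ g a).trans (by rw [ha g hg])⟩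

/-- transport commutes with the projections to the degrees -/
theorem T_proj (F : Fam ℛ S) {s t : S} (γ : s ⟶ t) (n : ℕ) (c : W.H (F.X s)) :
    F.T γ (proj (W.isInternal (F.X s)) n c) = proj (W.isInternal (F.X t)) n (F.T γ c) := by
  refine gr_induction (W.isInternal (F.X s)) (p := fun c =>
    F.T γ (proj (W.isInternal (F.X s)) n c) = proj (W.isInternal (F.X t)) n (F.T γ c)) ?_ ?_ c
  · intro i a ha
    have h2 := F.T_gr γ i a ha
    by_cases hn : i = n
    · subst hn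
      rw [proj_same _ ha, proj_same _ h2]
    · rw [proj_ne _ ha hn, proj_ne _ h2 hn, map_zero]
  · intro a b ha hb
    rw [map_add, map_add, ha, hb, map_add, map_add]

theorem pot_proj {F : Fam ℛ S} {s : S} {c : W.H (F.X s)} (hc : F.PF s c) (n : ℕ) :
    F.PF s (proj (W.isInternal (F.X s)) n c) := by
  obtain ⟨Δ, hΔ, hc⟩ := hc
  exact ⟨Δ, hΔ, fun g hg => by rw [T_proj, hc g hg]⟩

/-- the linear form of the variational Hodge conjecture in a given codimension -/
def VKp (p : ℕ) (F : Fam ℛ S) : Prop :=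
  ∀ (s t : S) (γ : s ⟶ t) (c : W.H (F.X s)), F.PF s c →
    c ∈ Submodule.span W.K (algClasses W (F.X s) p) →
    F.T γ c ∈ Submodule.span W.K (algClasses W (F.X t) p)

theorem span_le_gr (X : 𝒱.Obj) (p : ℕ) :
    Submodule.span W.K (algClasses W X p) ≤ W.gr X (2 * p) :=
  Submodule.span_le.2 fun _ ha => alg_gr ha

theorem span_le_algSpan (X : 𝒱.Obj) (p : ℕ) :
    Submodule.span W.K (algClasses W X p) ≤ algSpan W X :=
  Submodule.span_mono (Set.subset_iUnion _ p)

/-- the even components of the elements of the span of the algebraic classes -/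
theorem proj_algSpan {X : 𝒱.Obj} {c : W.H X} (hc : c ∈ algSpan W X) (j : ℕ) :
    proj (W.isInternal X) (2 * j) c ∈ Submodule.span W.K (algClasses W X j) := by
  induction hc using Submodule.span_induction with
  | mem a ha =>
    obtain ⟨i, hi⟩ := Set.mem_iUnion.1 ha
    by_cases hij : i = j
    · subst hij
      rw [proj_same _ (alg_gr hi)]
      exact Submodule.subset_span hi
    · rw [proj_ne _ (alg_gr hi) (by omega)]
      exact Submodule.zero_mem _
  | zero => rw [map_zero]; exact Submodule.zero_mem _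
  | add x y _ _ hx hy => rw [map_add]; exact Submodule.add_mem _ hx hy
  | smul q x _ hx => rw [map_smul]; exact Submodule.smul_mem _ _ hx

theorem sum_proj_algSpan {X : 𝒱.Obj} {c : W.H X} (hc : c ∈ algSpan W X) :
    c = ∑ j ∈ Finset.range (X.dim + 1), proj (W.isInternal X) (2 * j) c := by
  induction hc using Submodule.span_induction with
  | mem a ha =>
    obtain ⟨i, hi⟩ := Set.mem_iUnion.1 ha
    by_cases hid : i ≤ X.dim
    · rw [Finset.sum_eq_single_of_mem i (Finset.mem_range.2 (by omega)) fun j _ hj => by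
        rw [proj_ne _ (alg_gr hi) (by omega)], proj_same _ (alg_gr hi)]
    · have h1 : a = 0 := by
        have h2 := alg_gr hi
        rw [W.gr_eq_bot X _ (by omega)] at h2
        exact (Submodule.mem_bot _).1 h2
      rw [h1]
      simp
  | zero => simp
  | add x y _ _ hx hy =>
    conv_lhs => rw [hx, hy]
    rw [← Finset.sum_add_distrib]
    exact Finset.sum_congr rfl fun j _ => (map_add _ _ _).symm
  | smul q x _ hx =>
    conv_lhs => rw [hx]
    rw [Finset.smul_sum]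
    exact Finset.sum_congr rfl fun j _ => (map_smul _ _ _).symm

theorem vhc_iff {p : ℕ} {F : Fam ℛ S} : F.VHC p ↔ VKp p F := by
  constructor
  · intro h s t γ c ⟨Δ, hΔ, hc⟩ hcp
    obtain ⟨n, q, a, hq, ha, rfl⟩ := expand_alg hcp
    have hR := ℛ.rational (F.X s)
    have haR : ∀ i, a i ∈ ℛ.R (F.X s) := fun i => ℛ.cl_mem _ p (ha i)
    have h1 : ∀ g ∈ Δ, ∀ i, F.T g (a i) = a i := by
      intro g hg i
      have h2 := hR.disjoint n q (fun i => F.T g (a i) - a i) hq (fun i =>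
        hR.sub_mem _ (F.T_rat g _ (haR i)) _ (haR i)) (by
          simp only [smul_sub]
          rw [Finset.sum_sub_distrib]
          have h3 := hc g hg
          rw [map_sum] at h3
          rw [← h3, sub_eq_zero]
          refine Finset.sum_congr rfl fun i _ => ?_
          rw [map_smul]) i
      exact sub_eq_zero.1 h2
    rw [map_sum]
    refine Submodule.sum_mem _ fun i _ => ?_
    rw [map_smul]
    exact Submodule.smul_mem _ _ (Submodule.subset_span
      (h s t γ (a i) (ha i) ⟨Δ, hΔ, fun g hg => h1 g hg i⟩))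
  · intro h s t γ c hc hcf
    exact rat_descend ℛ (F.T_rat γ _ (ℛ.cl_mem _ p hc))
      (h s t γ c hcf (Submodule.subset_span hc))

end

end Pool.Agent.J4H50.VH
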