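import Pool.Agent.J4H50.VH.Flat
import Pool.Agent.N179.SP.Fin
import Pool.Agent.N179.GR.Fin

/-!
# The variational Hodge conjecture for products with independent factors
-/

set_option autoImplicit false
set_option linter.unusedSectionVars false

open CategoryTheory AlgebraicGeometry

universe u

namespace Pool.Agent.J4H50.VH

open Module Pool.Agent.H914 Pool.Agent.H914.VarClass Pool.Agent.H914.VarClass.Obj
  Pool.Agent.H914.WeilCohomology Pool.Agent.TH125.Gal Pool.Agent.N179.GR Pool.Agent.N179.GR.S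
  Pool.Agent.H281R3.HT

noncomputable section

variable {k : Type u} [Field k] {𝒱 : VarClass k} {ops : CycleOps 𝒱}
  {W : WeilCohomology.{u, 0} ops} {ℛ : RatStr W} {S : Type} [Groupoid.{0} S]

theorem tr_act (F : Fam ℛ S) {s : S} (g : s ⟶ s) (x y : W.H (F.X s)) :
    W.tr (F.X s) (x * F.T g y) = W.tr (F.X s) (F.T (Groupoid.inv g) x * y) := by
  have h := F.T_tr g (F.T (Groupoid.inv g) x * y)
  rw [map_mul, T_inv'] at h
  exact h

/-- **The trace form is nondegenerate on the potentially flat classes.** -/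
theorem nondeg_pot {P : Fam ℛ S} {s : S} (hss : Semisimple (P.coh s)) {x : W.H (P.X s)}
    (hx : x ∈ potSub P s) (h : ∀ y ∈ potSub P s, W.tr (P.X s) (x * y) = 0) : x = 0 := by
  obtain ⟨Δ, hΔ, hfix⟩ := exists_fix P s
  -- the radical
  let N : Set (W.H (P.X s)) := {x | x ∈ potSub P s ∧ ∀ y ∈ potSub P s, W.tr (P.X s) (x * y) = 0}
  let A : Submodule W.K (W.H (P.X s)) :=
    { carrier := {y | ∀ x ∈ N, W.tr (P.X s) (x * y) = 0}
      add_mem' := fun {a b} ha hb x hx => by rw [mul_add, map_add, ha x hx, hb x hx, add_zero]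
      zero_mem' := fun x _ => by rw [mul_zero, map_zero]
      smul_mem' := fun c a ha x hx => by rw [mul_smul_comm, map_smul, ha x hx, smul_zero] }
  have hNstab : ∀ (g : s ⟶ s), ∀ x ∈ N, P.T g x ∈ N := by
    intro g x hx
    refine ⟨pot_T g hx.1, fun y hy => ?_⟩
    have h1 := hx.2 _ (pot_T (Groupoid.inv g) hy)
    have h2 := P.T_tr g (x * P.T (Groupoid.inv g) y)
    rw [map_mul, T_inv', h1] at h2
    exact h2
  have hAstab : Stable (M := P.coh s) A := by
    intro g (y : W.H (P.X s)) hy x hx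
    have h1 : W.tr (P.X s) (P.T (Groupoid.inv (show s ⟶ s from g)) x * y) = 0 :=
      hy _ (hNstab _ x hx)
    exact (tr_act P g x y).trans h1
  obtain ⟨B, hB, hAB⟩ := hss A hAstab
  have hAB' : IsCompl A (show Submodule W.K (W.H (P.X s)) from B) := hAB
  have hBpot : ∀ c ∈ (show Submodule W.K (W.H (P.X s)) from B), c ∈ potSub P s := by
    intro c hc
    refine ⟨Δ, hΔ, fun g hg => ?_⟩
    rw [← sub_eq_zero]
    have h1 : P.T g c - c ∈ (show Submodule W.K (W.H (P.X s)) from B) :=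
      Submodule.sub_mem _ (hB g c hc) hc
    have h2 : P.T g c - c ∈ A := by
      intro x hx
      have h3 : P.T (Groupoid.inv (show s ⟶ s from g)) x = x :=
        hfix (g⁻¹ : End s) (Δ.inv_mem hg) x hx.1
      have h4 := tr_act P g x c
      rw [h3] at h4
      rw [mul_sub, map_sub, sub_eq_zero]
      exact h4
    exact (Submodule.disjoint_def.1 hAB'.disjoint) _ h2 h1
  apply W.nondeg
  intro y
  obtain ⟨a, ha, b, hb, rfl⟩ := Submodule.mem_sup.1
    (show y ∈ A ⊔ (show Submodule W.K (W.H (P.X s)) from B) by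
      rw [hAB'.sup_eq_top]; exact Submodule.mem_top)
  rw [mul_add, map_add, ha x ⟨hx, h⟩, h b (hBpot b hb), add_zero]

/-- The functionals on the potentially flat classes are given by potentially flat classes. -/
theorem exists_dual {P : Fam ℛ S} {s : S} (hss : Semisimple (P.coh s))
    (φ : W.H (P.X s) →ₗ[W.K] W.K) :
    ∃ x ∈ potSub P s, ∀ y ∈ potSub P s, W.tr (P.X s) (x * y) = φ y := by
  let B : potSub P s →ₗ[W.K] Module.Dual W.K (potSub P s) :=
    ((LinearMap.mul W.K (W.H (P.X s))).compr₂ (W.tr (P.X s))).domRestrict₁₂ _ _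
  have hB : ∀ x y, B x y = W.tr (P.X s) ((x : W.H (P.X s)) * y) := fun x y => rfl
  have hinj : Function.Injective B := by
    rw [injective_iff_map_eq_zero]
    intro x hx
    apply Subtype.ext
    refine nondeg_pot hss x.2 fun y hy => ?_
    rw [← hB x ⟨y, hy⟩, hx]
    rfl
  have hsurj : Function.Surjective B :=
    (LinearMap.injective_iff_surjective_of_finrank_eq_finrank
      (Subspace.dual_finrank_eq (K := W.K) (V := potSub P s)).symm).1 hinj
  obtain ⟨x, hx⟩ := hsurj (φ.domRestrict (potSub P s))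
  refine ⟨x, x.2, fun y hy => ?_⟩
  rw [← hB x ⟨y, hy⟩, hx]
  rfl

/-- The flat classes on the product are combinations of products. -/
def Split (P Y : Fam ℛ S) (υ : ProdTrans P Y) (s : S) : Prop :=
  ∀ c : W.H ((P.X s).prod (Y.X s)), (prodFam P Y υ).PF s c →
    ∃ (N : ℕ) (m m' : Fin N → W.H (P.X s)) (w : Fin N → W.H (Y.X s)),
      (∀ l, P.PF s (m l)) ∧ (∀ l, P.PF s (m' l)) ∧ (∀ l, Y.PF s (w l)) ∧
      (∀ l l', W.tr (P.X s) (m' l * m l') = if l' = l then 1 else 0) ∧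
      c = ∑ l, W.map (fst (P.X s) (Y.X s)) (m l) * W.map (snd (P.X s) (Y.X s)) (w l)

/-- the splitting at the base point -/
theorem split_base {P Y : Fam ℛ S} {υ : ProdTrans P Y} {s : S} (hss : Semisimple (P.coh s))
    (hsl : ∀ c : W.H ((P.X s).prod (Y.X s)), (prodFam P Y υ).PF s c → ∀ ψ,
      ctr2 ψ c ∈ potSub P s) : Split P Y υ s := by
  classical
  intro c hc
  obtain ⟨N, m, φ, hm, hφ, hexp⟩ := exists_exp (Y.X s) (potSub P s : Set (W.H (P.X s)))
  have hexp' := hexp c fun ψ => by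
    rw [Submodule.span_eq]
    exact hsl c hc ψ
  choose m' hm' hm'' using fun l => exists_dual hss (φ l)
  refine ⟨N, m, m', fun l => ctr (φ l) c, hm, hm', fun l => ?_, fun l l' => ?_, hexp'⟩
  · obtain ⟨Δ, hΔ, hc⟩ := hc
    obtain ⟨Δ', hΔ', hfix⟩ := exists_fix P s
    refine ⟨Δ ⊓ Δ', inferInstance, fun g hg => ?_⟩
    have h1 : (prodFam P Y υ).T g c = ∑ l, W.map (fst (P.X s) (Y.X s)) (m l) *
        W.map (snd (P.X s) (Y.X s)) (Y.T g (ctr (φ l) c)) := by
      conv_lhs => rw [hexp']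
      rw [map_sum]
      refine Finset.sum_congr rfl fun l _ => ?_
      rw [map_mul]
      refine congrArg₂ _ ?_ ?_
      · exact (fst_T υ g (m l)).trans (by rw [hfix g hg.2 _ (hm l)])
      · exact snd_T υ g _
    rw [hc g hg.1] at h1
    have h2 := ctr_sum hφ (fun l => Y.T g (ctr (φ l) c)) l
    rw [← h1] at h2
    exact h2.symm
  · rw [hm'' l _ (hm l'), hφ]

/-- transport of the splitting -/
theorem Split.transport {P Y : Fam ℛ S} {υ : ProdTrans P Y} {s t : S} (h : Split P Y υ s)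
    (δ : s ⟶ t) : Split P Y υ t := by
  intro c hc
  obtain ⟨N, m, m', w, hm, hm', hw, hd, he⟩ := h ((prodFam P Y υ).T (Groupoid.inv δ) c)
    (pot_T (F := prodFam P Y υ) (Groupoid.inv δ) hc)
  refine ⟨N, fun l => P.T δ (m l), fun l => P.T δ (m' l), fun l => Y.T δ (w l),
    fun l => pot_T δ (hm l), fun l => pot_T δ (hm' l), fun l => pot_T δ (hw l),
    fun l l' => ?_, ?_⟩
  · rw [← map_mul, P.T_tr, hd]
  · have h1 := congrArg ((prodFam P Y υ).T δ) he
    rw [T_inv' (prodFam P Y υ) δ c, map_sum] at h1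
    rw [h1]
    refine Finset.sum_congr rfl fun l _ => ?_
    rw [map_mul]
    exact congrArg₂ _ (fst_T υ δ (m l)) (snd_T υ δ (w l))

theorem push_split {X Y : 𝒱.Obj} {N : ℕ} {m m' : Fin N → W.H X} {w : Fin N → W.H Y}
    (hd : ∀ l l', W.tr X (m' l * m l') = if l' = l then 1 else 0) (l : Fin N) :
    W.push (snd X Y) (W.map (fst X Y) (m' l) *
      ∑ l', W.map (fst X Y) (m l') * W.map (snd X Y) (w l')) = w l := by
  rw [Finset.mul_sum, map_sum, Finset.sum_eq_single l]
  · rw [← mul_assoc, ← map_mul, W.push_snd, hd, if_pos rfl, one_smul]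
  · intro l' _ hl
    rw [← mul_assoc, ← map_mul, W.push_snd, hd, if_neg hl, zero_smul]
  · intro h
    exact absurd (Finset.mem_univ _) h

/-- all flat classes on the fibres are algebraic -/
def AlgP (P : Fam ℛ S) : Prop :=
  ∀ (s : S) (c : W.H (P.X s)), P.PF s c → c ∈ algSpan W (P.X s)

/-- the components of the products -/
theorem proj_tensor {P Y : Fam ℛ S} {s : S} {a : W.H (P.X s)} {b : W.H (Y.X s)}
    (ha : P.PF s a) (ha' : a ∈ algSpan W (P.X s)) (hb : Y.PF s b)
    (hb' : b ∈ algSpan W (Y.X s)) (p : ℕ) :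
    proj (W.isInternal ((P.X s).prod (Y.X s))) (2 * p)
      (W.map (fst (P.X s) (Y.X s)) a * W.map (snd (P.X s) (Y.X s)) b) ∈
      Submodule.span W.K {x | ∃ i j, i + j = p ∧ ∃ a ∈ P.flatAlg s i, ∃ b ∈ Y.flatAlg s j,
        x = W.map (fst (P.X s) (Y.X s)) a * W.map (snd (P.X s) (Y.X s)) b} := by
  rw [sum_proj_algSpan ha', sum_proj_algSpan hb', map_sum, map_sum, Finset.sum_mul, map_sum]
  refine Submodule.sum_mem _ fun i _ => ?_
  rw [Finset.mul_sum, map_sum]
  refine Submodule.sum_mem _ fun j _ => ?_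
  have h1 : W.map (fst (P.X s) (Y.X s)) (proj (W.isInternal (P.X s)) (2 * i) a) *
      W.map (snd (P.X s) (Y.X s)) (proj (W.isInternal (Y.X s)) (2 * j) b) ∈
      W.gr ((P.X s).prod (Y.X s)) (2 * i + 2 * j) :=
    W.mul_mem (W.map_mem _ (proj_mem _ _ _)) (W.map_mem _ (proj_mem _ _ _))
  by_cases hij : i + j = p
  · rw [show 2 * p = 2 * i + 2 * j by omega, proj_same _ h1]
    exact Submodule.subset_span ⟨i, j, hij, _, ⟨pot_proj ha _, proj_algSpan ha' i⟩,
      _, ⟨pot_proj hb _, proj_algSpan hb' j⟩, rfl⟩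
  · rw [proj_ne _ h1 (by omega)]
    exact Submodule.zero_mem _

/-- the splitting of the flat algebraic classes -/
theorem kunneth_of_split {P Y : Fam ℛ S} {υ : ProdTrans P Y} (h : ∀ s, Split P Y υ s)
    (hP : AlgP P) : FlatKunneth P Y υ := by
  intro s p c hc
  obtain ⟨N, m, m', w, hm, hm', hw, hd, he⟩ := h s c hc.1
  have hw' : ∀ l, w l ∈ algSpan W (Y.X s) := by
    intro l
    have h1 := push_split (w := w) hd l
    rw [← he] at h1
    rw [← h1]
    exact algSpan_push _ (algSpan_mul (algSpan_map _ (hP s _ (hm' l)))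
      (span_le_algSpan _ p hc.2))
  have h2 := proj_same (W.isInternal ((P.X s).prod (Y.X s))) (span_le_gr _ p hc.2)
  rw [← h2, he, map_sum]
  exact Submodule.sum_mem _ fun l _ =>
    proj_tensor (hm l) (hP s _ (hm l)) (hw l) (hw' l) p

/-- the class of a polarization, at all points -/
theorem exists_pol {P : Fam ℛ S} {s₁ : S} (hconn : ∀ t : S, Nonempty (s₁ ⟶ t))
    (hpol : ∃ h ∈ W.gr (P.X s₁) 2, P.PF s₁ h ∧ W.tr (P.X s₁) (h ^ (P.X s₁).dim) ≠ 0)
    (s : S) : (P.X s).dim = (P.X s₁).dim ∧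
      ∃ h ∈ W.gr (P.X s) 2, P.PF s h ∧ W.tr (P.X s) (h ^ (P.X s₁).dim) ≠ 0 := by
  obtain ⟨δ⟩ := hconn s
  obtain ⟨h, hh, hf, ht⟩ := hpol
  have h1 : W.tr (P.X s) (P.T δ h ^ (P.X s₁).dim) ≠ 0 := by
    rw [← map_pow, P.T_tr]
    exact ht
  refine ⟨?_, P.T δ h, P.T_gr δ _ _ hh, pot_T δ hf, h1⟩
  by_contra hne
  apply h1
  have h2 : ∀ n : ℕ, P.T δ h ^ n ∈ W.gr (P.X s) (2 * n) := by
    intro n
    induction n with
    | zero => rw [pow_zero]; exact W.one_mem _
    | succ n ih =>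
      rw [pow_succ]
      exact W.mul_mem ih (P.T_gr δ _ _ hh)
  exact W.tr_eq_zero (h2 _) (by omega)

theorem pot_pow {F : Fam ℛ S} {s : S} {a : W.H (F.X s)} (ha : F.PF s a) (n : ℕ) :
    F.PF s (a ^ n) := by
  obtain ⟨Δ, hΔ, ha⟩ := ha
  exact ⟨Δ, hΔ, fun g hg => by rw [map_pow, ha g hg]⟩

theorem pow_gr {X : 𝒱.Obj} {a : W.H X} (ha : a ∈ W.gr X 2) (n : ℕ) : a ^ n ∈ W.gr X (2 * n) := by
  induction n with
  | zero => rw [pow_zero]; exact W.one_mem _
  | succ n ih =>
    rw [pow_succ]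
    exact W.mul_mem ih ha

/-- products of algebraic classes -/
theorem span_mul {X : 𝒱.Obj} {i j : ℕ} {a b : W.H X}
    (ha : a ∈ Submodule.span W.K (algClasses W X i))
    (hb : b ∈ Submodule.span W.K (algClasses W X j)) :
    a * b ∈ Submodule.span W.K (algClasses W X (i + j)) := by
  refine algSpan_gr (algSpan_mul (span_le_algSpan _ _ ha) (span_le_algSpan _ _ hb)) ?_
  have h1 := W.mul_mem (span_le_gr _ _ ha) (span_le_gr _ _ hb)
  rwa [show 2 * i + 2 * j = 2 * (i + j) by ring] at h1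

theorem span_map {X Y : 𝒱.Obj} (f : X ⟶ Y) {i : ℕ} {a : W.H Y}
    (ha : a ∈ Submodule.span W.K (algClasses W Y i)) :
    W.map f a ∈ Submodule.span W.K (algClasses W X i) :=
  algSpan_gr (algSpan_map _ (span_le_algSpan _ _ ha)) (W.map_mem _ (span_le_gr _ _ ha))

/-- **The variational Hodge conjecture for the product.** -/
theorem vk_prod {P Y : Fam ℛ S} {υ : ProdTrans P Y} (h : ∀ s, Split P Y υ s) (hP : AlgP P)
    {s₁ : S}
    (hconn : ∀ t : S, Nonempty (s₁ ⟶ t))
    (hpol : ∃ h ∈ W.gr (P.X s₁) 2, P.PF s₁ h ∧ W.tr (P.X s₁) (h ^ (P.X s₁).dim) ≠ 0)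
    (p : ℕ) : VKp p (prodFam P Y υ) ↔ ∀ j ≤ p, p ≤ j + (P.X s₁).dim → VKp j Y := by
  constructor
  · intro hV j hj hjp s t γ c hc hca
    obtain ⟨-, h, hh, hf, ht⟩ := exists_pol hconn hpol s
    set n := (P.X s₁).dim with hn
    -- the class on the product
    have h1 : h ^ (p - j) ∈ Submodule.span W.K (algClasses W (P.X s) (p - j)) :=
      algSpan_gr (hP s _ (pot_pow hf _)) (pow_gr hh _)
    have h2 : W.map (fst (P.X s) (Y.X s)) (h ^ (p - j)) * W.map (snd (P.X s) (Y.X s)) c ∈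
        Submodule.span W.K (algClasses W ((P.X s).prod (Y.X s)) p) := by
      have h3 := span_mul (span_map (fst (P.X s) (Y.X s)) h1) (span_map (snd (P.X s) (Y.X s)) hca)
      rwa [show p - j + j = p by omega] at h3
    have h3 := hV s t γ _ (pot_mul (F := prodFam P Y υ) (pot_fst υ (pot_pow hf _)) (pot_snd υ hc)) h2
    have h4 : (prodFam P Y υ).T γ (W.map (fst (P.X s) (Y.X s)) (h ^ (p - j)) *
        W.map (snd (P.X s) (Y.X s)) c) = W.map (fst (P.X t) (Y.X t)) (P.T γ (h ^ (p - j))) *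
        W.map (snd (P.X t) (Y.X t)) (Y.T γ c) := by
      rw [map_mul]
      exact congrArg₂ _ (fst_T υ γ _) (snd_T υ γ _)
    rw [h4] at h3
    -- the complementary class
    have h5 : P.T γ h ^ (n - (p - j)) ∈ algSpan W (P.X t) := hP t _ (pot_pow (pot_T γ hf) _)
    have h6 : W.push (snd (P.X t) (Y.X t)) (W.map (fst (P.X t) (Y.X t))
        (P.T γ h ^ (n - (p - j))) * (W.map (fst (P.X t) (Y.X t)) (P.T γ (h ^ (p - j))) *
        W.map (snd (P.X t) (Y.X t)) (Y.T γ c))) ∈ algSpan W (Y.X t) :=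
      algSpan_push _ (algSpan_mul (algSpan_map _ h5) (span_le_algSpan _ _ h3))
    rw [← mul_assoc, ← map_mul, W.push_snd, map_pow, ← pow_add,
      show n - (p - j) + (p - j) = n by omega, ← map_pow, P.T_tr] at h6
    have h7 := Submodule.smul_mem _ (W.tr (P.X s) (h ^ n))⁻¹ h6
    rw [smul_smul, inv_mul_cancel₀ ht, one_smul] at h7
    exact algSpan_gr h7 (Y.T_gr γ _ _ (span_le_gr _ _ hca))
  · intro hV s t γ c hc hca
    have hk := kunneth_of_split h hP s p c ⟨hc, hca⟩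
    refine Submodule.span_induction (p := fun c _ => (prodFam P Y υ).T γ c ∈
      Submodule.span W.K (algClasses W ((P.X t).prod (Y.X t)) p)) ?_ ?_ ?_ ?_ hk
    · rintro _ ⟨i, j, hij, a, ha, b, hb, rfl⟩
      have h4 : (prodFam P Y υ).T γ (W.map (fst (P.X s) (Y.X s)) a *
          W.map (snd (P.X s) (Y.X s)) b) = W.map (fst (P.X t) (Y.X t)) (P.T γ a) *
          W.map (snd (P.X t) (Y.X t)) (Y.T γ b) := by
        rw [map_mul]
        exact congrArg₂ _ (fst_T υ γ _) (snd_T υ γ _)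
      rw [h4, ← hij]
      by_cases hi : i ≤ (P.X s₁).dim
      · refine span_mul (span_map _ ?_) (span_map _ ?_)
        · exact algSpan_gr (hP t _ (pot_T γ ha.1)) (P.T_gr γ _ _ (span_le_gr _ _ ha.2))
        · exact hV j (by omega) (by omega) s t γ b hb.1 hb.2
      · have h5 : a = 0 := by
          have h6 := span_le_gr _ _ ha.2
          rw [W.gr_eq_bot _ _ (by rw [(exists_pol hconn hpol s).1]; omega)] at h6
          exact (Submodule.mem_bot _).1 h6
        rw [h5, map_zero, map_zero, zero_mul]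
        exact Submodule.zero_mem _
    · rw [map_zero]
      exact Submodule.zero_mem _
    · intro x y _ _ hx hy
      rw [map_add]
      exact Submodule.add_mem _ hx hy
    · intro q x _ hx
      rw [map_smul]
      exact Submodule.smul_mem _ _ hx

/-- dominated families -/
theorem vk_dom {F G : Fam ℛ S} (h : Dominates F G) {p : ℕ} (hF : VKp p F) : VKp p G := by
  intro s t γ c hc hca
  obtain ⟨f, hf, hw⟩ := h
  obtain ⟨w, hwp, q, hq, hpush⟩ := hw t
  have hf' : ∀ {s t : S} (γ : s ⟶ t) (a : W.H (G.X s)),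
      F.T γ (W.map (f s) a) = W.map (f t) (G.T γ a) := fun γ a => hf γ a
  have h1 : F.PF s (W.map (f s) c) := by
    obtain ⟨Δ, hΔ, hc⟩ := hc
    exact ⟨Δ, hΔ, fun g hg => by rw [hf', hc g hg]⟩
  have h2 := span_le_algSpan _ _ (hF s t γ _ h1 (span_map _ hca))
  rw [hf'] at h2
  have h3 : W.push (f t) (w * W.map (f t) (G.T γ c)) ∈ algSpan W (G.X t) :=
    algSpan_push _ (algSpan_mul (Submodule.subset_span hwp) h2)
  rw [W.push_mul, hpush, smul_mul_assoc, one_mul] at h3
  have h4 := Submodule.smul_mem _ q⁻¹ h3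
  rw [smul_smul, inv_mul_cancel₀ hq, one_smul] at h4
  exact algSpan_gr h4 (G.T_gr γ _ _ (span_le_gr _ _ hca))

section tower

/-- the fibre with the monodromy action -/
abbrev Fam.fib (F : Fam ℛ S) (s : S) : GVar W (End s) := ⟨F.X s, F.sys.act s⟩

/-- the action on the fibre of a product -/
def actsOf {P Y : Fam ℛ S} (υ : ProdTrans P Y) (s : S) : Acts (P.fib s) (Y.fib s) := υ.sys.act s

theorem actsOf_prod {P Y : Fam ℛ S} (υ : ProdTrans P Y) (s : S) :
    ProdAct (P.fib s) (Y.fib s) (actsOf υ s) :=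
  ⟨fun g a => fst_T υ g a, fun g a => snd_T υ g a⟩

variable {s₁ : S} {ι : Type} {V : ι → GRep W.K (End s₁)}

theorem ofType_fib {V : GRep W.K (End s₁)} {P : Fam ℛ S} (h : P.sys.OfType s₁ V) :
    Pool.Agent.N179.GR.S.OfType V (P.fib s₁) := ⟨h.gen, h.semisimple⟩

/-- the tower of the fibres over the base point -/
theorem tower_fib {Z Y : Fam ℛ S} {L : List (ι × Fam ℛ S)} (h : Tower Z L Y) :
    (L.map Prod.fst).Nodup → (∀ x ∈ L, x.2.sys.OfType s₁ (V x.1)) →
    Pool.Agent.N179.GR.S.Tower V (Z.fib s₁) (L.map fun x => (x.1, x.2.fib s₁)) (Y.fib s₁) := by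
  induction h with
  | base => exact fun _ _ => Pool.Agent.N179.GR.S.Tower.base
  | @step L Y i P υ hT ih =>
    intro hn h
    rw [List.map_cons, List.nodup_cons] at hn
    refine Pool.Agent.N179.GR.S.Tower.step i (P.fib s₁) (actsOf υ s₁)
      (ih hn.2 fun y hy => h y (List.mem_cons_of_mem _ hy)) ?_
      (ofType_fib (h (i, P) List.mem_cons_self)) (actsOf_prod _ _)
    intro y hy hyx
    obtain ⟨z, hz, rfl⟩ := List.mem_map.1 hy
    exact hn.1 (List.mem_map.2 ⟨z, hz, hyx⟩)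

theorem split_tower [IsAlgClosed W.K] (hconn : ∀ t : S, Nonempty (s₁ ⟶ t)) {E : Set ι} {m : ℕ}
    {U : Fin m → GRep W.K (End s₁)} (hU : ∀ i ∉ E, ∀ a, Spl (fl (V i)) {fl (U a)})
    (hV : ∀ i ∉ E, ∀ j ∉ E, j ≠ i → Spl (fl (V i)) {fl (V j)}) {Z : Fam ℛ S}
    (hZ : Z.sys.GenBy s₁ U) {i : ι} {P Y : Fam ℛ S} {L : List (ι × Fam ℛ S)}
    {υ : ProdTrans P Y} (hY : Tower Z L Y) (hL : GoodList s₁ V E ((i, P) :: L)) (s : S) :
    Split P Y υ s := by
  obtain ⟨δ⟩ := hconn s
  refine Split.transport ?_ δ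
  obtain ⟨hn, hg⟩ := hL
  have hP := hg (i, P) List.mem_cons_self
  rw [List.map_cons, List.nodup_cons] at hn
  refine split_base hP.2.ofType.semisimple fun c hc ψ => ?_
  have hT := tower_fib (s₁ := s₁) (V := V) hY hn.2
    fun y hy => (hg y (List.mem_cons_of_mem _ hy)).2.ofType
  have hZ' : GeneratedBy U (Z.fib s₁) := hZ
  have h1 := Pool.Agent.N179.SP.slices hZ' hT (i := i) (hU i hP.1) (fun x hx => by
      obtain ⟨y, hy, rfl⟩ := List.mem_map.1 hx
      exact hV i hP.1 y.1 (hg y (List.mem_cons_of_mem _ hy)).1 fun h =>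
        hn.1 (List.mem_map.2 ⟨y, hy, h⟩))
    (ofType_fib hP.2.ofType) (actsOf_prod υ s₁)
    (z := c) (by
      obtain ⟨Δ, hΔ, hc⟩ := hc
      exact ⟨Δ, hΔ, fun g hg => ⟨1, by rw [one_smul]; exact hc g hg⟩⟩) ψ
  have h2 : Submodule.span W.K {y | (full (W.H (P.X s₁)) (algR (P.fib s₁).act)).Eig y} ≤
      potSub P s₁ := Submodule.span_le.2 fun y hy => hP.2.ofType.noChar y hy
  exact h2 h1

theorem goodList_tail {E : Set ι} {x : ι × Fam ℛ S} {L : List (ι × Fam ℛ S)}
    (h : GoodList s₁ V E (x :: L)) : GoodList s₁ V E L := by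
  obtain ⟨hn, hg⟩ := h
  rw [List.map_cons, List.nodup_cons] at hn
  exact ⟨hn.2, fun y hy => hg y (List.mem_cons_of_mem _ hy)⟩

theorem vk_tower [IsAlgClosed W.K] (hconn : ∀ t : S, Nonempty (s₁ ⟶ t)) {E : Set ι} {m : ℕ}
    {U : Fin m → GRep W.K (End s₁)} (hU : ∀ i ∉ E, ∀ a, Spl (fl (V i)) {fl (U a)})
    (hV : ∀ i ∉ E, ∀ j ∉ E, j ≠ i → Spl (fl (V i)) {fl (V j)}) {Z : Fam ℛ S}
    (hZ : Z.sys.GenBy s₁ U) {L : List (ι × Fam ℛ S)} {Y : Fam ℛ S} (hY : Tower Z L Y) :
    GoodList s₁ V E L → ∀ p, (VKp p Y ↔ ∀ j ≤ p, p ≤ j + relDim s₁ L → VKp j Z) := by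
  induction hY with
  | base =>
    intro _ p
    constructor
    · intro h j hj hjp
      have h1 : j = p := by
        change p ≤ j + 0 at hjp
        omega
      exact h1 ▸ h
    · intro h
      exact h p le_rfl (Nat.le_add_right _ _)
  | @step L Y i P υ hT ih =>
    intro hL p
    have hx := (hL.2 (i, P) List.mem_cons_self).2
    have h1 := vk_prod (υ := υ) (fun s => split_tower hconn hU hV hZ hT hL s)
      hx.algebraic hconn hx.polarized p
    have hd : relDim s₁ ((i, P) :: L) = (P.X s₁).dim + relDim s₁ L := by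
      unfold relDim
      rw [List.map_cons, List.sum_cons]
    refine h1.trans ⟨fun h j hj hjp => ?_, fun h j hj hjp => ?_⟩
    · rw [hd] at hjp
      by_cases h2 : p ≤ j + relDim s₁ L
      · exact (ih (goodList_tail hL) p).1 (h p le_rfl (by omega)) j hj h2
      · exact (ih (goodList_tail hL) (j + relDim s₁ L)).1
          (h _ (by omega) (by omega)) j (by omega) le_rfl
    · refine (ih (goodList_tail hL) j).2 fun l hl hlj => ?_
      exact h l (by omega) (by rw [hd]; omega)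

theorem outside [IsAlgClosed W.K] (hconn : ∀ t : S, Nonempty (s₁ ⟶ t)) {E : Set ι} {m : ℕ}
    {U : Fin m → GRep W.K (End s₁)} (hU : ∀ i ∉ E, ∀ a, Spl (fl (V i)) {fl (U a)})
    (hV : ∀ i ∉ E, ∀ j ∉ E, j ≠ i → Spl (fl (V i)) {fl (V j)}) {Z : Fam ℛ S}
    (hZ : Z.sys.GenBy s₁ U) : Outside s₁ V Z E where
  kunneth i P Y L υ hY hL := kunneth_of_split (fun s => split_tower hconn hU hV hZ hY hL s)
    (hL.2 (i, P) List.mem_cons_self).2.algebraic
  vhc L Y hY hL p := by
    rw [vhc_iff]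
    simp only [vhc_iff]
    exact vk_tower hconn hU hV hZ hY hL p
  dominated L Y hY hL G hG p hZV := by
    simp only [vhc_iff] at hZV ⊢
    exact vk_dom hG ((vk_tower hconn hU hV hZ hY hL p).2 hZV)

end tower

end

end Pool.Agent.J4H50.VH
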