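import Pool.Agent.J4H50.VH.Defs
import Pool.Agent.TH125.Gal.Diag
import Pool.Agent.TH125.Gal.Tate

/-!
# Rational classes, and the linear form of the variational Hodge conjecture
-/

set_option autoImplicit false

open CategoryTheory AlgebraicGeometry

universe u

namespace Pool.Agent.J4H50.VH

open Pool.Agent.H914 Pool.Agent.H914.VarClass Pool.Agent.H914.VarClass.Obj
  Pool.Agent.H914.WeilCohomology Pool.Agent.TH125.Gal Pool.Agent.N179.GR.S
  Pool.Agent.H281R3.HT

noncomputable section

section Lin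

/-- combinations of elements of a rational space, with linearly independent coefficients -/
theorem expand {K : Type} [Field K] [CharZero K] {H : Type} [AddCommGroup H] [Module K H]
    {S : Set H} (h0 : (0 : H) ∈ S) (hadd : ∀ a ∈ S, ∀ b ∈ S, a + b ∈ S)
    (hsmul : ∀ (q : ℚ), ∀ a ∈ S, (q : K) • a ∈ S) {x : H} (hx : x ∈ Submodule.span K S) :
    ∃ (n : ℕ) (c : Fin n → K) (a : Fin n → H), LinearIndependent ℚ c ∧ (∀ i, a i ∈ S) ∧
      x = ∑ i, c i • a i := by
  classical
  obtain ⟨N, f, g, rfl⟩ := Submodule.mem_span_set'.1 hx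
  let U : Submodule ℚ K := Submodule.span ℚ (Set.range f)
  have hU : Module.Finite ℚ U := Module.Finite.span_of_finite ℚ (Set.finite_range f)
  let b := Module.finBasis ℚ U
  have hf : ∀ i, f i ∈ U := fun i => Submodule.subset_span ⟨i, rfl⟩
  have hfi : ∀ i, f i = ∑ j, ((b.repr ⟨f i, hf i⟩ j : ℚ) : K) * (b j : K) := by
    intro i
    have h1 := congrArg (Submodule.subtype U) (b.sum_repr ⟨f i, hf i⟩)
    rw [map_sum] at h1
    refine (show Submodule.subtype U ⟨f i, hf i⟩ = f i from rfl).symm.trans (h1.symm.trans ?_)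
    refine Finset.sum_congr rfl fun j _ => ?_
    rw [map_smul, Submodule.subtype_apply, Rat.smul_def]
  have hsum : ∀ (s : Finset (Fin N)) (q : Fin N → ℚ),
      ∑ i ∈ s, ((q i : ℚ) : K) • (g i : H) ∈ S := by
    intro s q
    induction s using Finset.induction_on with
    | empty => rw [Finset.sum_empty]; exact h0
    | insert i s hi ih =>
      rw [Finset.sum_insert hi]
      exact hadd _ (hsmul _ _ (g i).2) _ ih
  refine ⟨_, fun j => (b j : K), fun j => ∑ i, ((b.repr ⟨f i, hf i⟩ j : ℚ) : K) • (g i : H),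
    ?_, fun j => hsum _ _, ?_⟩
  · exact b.linearIndependent.map' (Submodule.subtype U) (Submodule.ker_subtype U)
  · calc ∑ i, f i • (g i : H) = ∑ i, ∑ j, (b j : K) • ((b.repr ⟨f i, hf i⟩ j : ℚ) : K) • (g i : H) := by
          refine Finset.sum_congr rfl fun i _ => ?_
          conv_lhs => rw [hfi i]
          rw [Finset.sum_smul]
          refine Finset.sum_congr rfl fun j _ => ?_
          rw [smul_smul, mul_comm]
      _ = _ := by
          rw [Finset.sum_comm]
          refine Finset.sum_congr rfl fun j _ => ?_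
          rw [Finset.smul_sum]

end Lin

variable {k : Type u} [Field k] {𝒱 : VarClass k} {ops : CycleOps 𝒱}
  {W : WeilCohomology.{u, 0} ops}

theorem alg_zero {X : 𝒱.Obj} (p : ℕ) : (0 : W.H X) ∈ algClasses W X p :=
  ⟨0, SmVar.IsCyc.zero _ _, map_zero _⟩

theorem expand_alg {X : 𝒱.Obj} {p : ℕ} {x : W.H X}
    (hx : x ∈ Submodule.span W.K (algClasses W X p)) :
    ∃ (n : ℕ) (c : Fin n → W.K) (a : Fin n → W.H X), LinearIndependent ℚ c ∧
      (∀ i, a i ∈ algClasses W X p) ∧ x = ∑ i, c i • a i :=
  expand (alg_zero p) (fun _ ha _ hb => alg_add ha hb) (fun q _ ha => alg_smul q ha) hx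

variable (ℛ : RatStr W)

/-- rational combinations of algebraic classes are algebraic -/
theorem rat_descend {X : 𝒱.Obj} {p : ℕ} {a : W.H X} (ha : a ∈ ℛ.R X)
    (ha' : a ∈ Submodule.span W.K (algClasses W X p)) : a ∈ algClasses W X p := by
  classical
  have hR := ℛ.rational X
  obtain ⟨n, c, b, hc, hb, hab⟩ := expand_alg ha'
  have hbR : ∀ i, b i ∈ ℛ.R X := fun i => ℛ.cl_mem X p (hb i)
  by_cases h1 : (1 : W.K) ∈ Submodule.span ℚ (Set.range c)
  · obtain ⟨q, hq⟩ := (Submodule.mem_span_range_iff_exists_fun ℚ).1 h1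
    have h2 : ∑ i, c i • ((q i : W.K) • a - b i) = 0 := by
      simp only [smul_sub]
      rw [Finset.sum_sub_distrib, ← hab]
      have h3 : ∑ i, c i • (q i : W.K) • a = (∑ i, q i • c i) • a := by
        rw [Finset.sum_smul]
        refine Finset.sum_congr rfl fun i _ => ?_
        rw [smul_smul, Rat.smul_def, mul_comm]
      rw [h3, hq, one_smul, sub_self]
    have h4 := hR.disjoint n c _ hc (fun i => hR.sub_mem _ (hR.smul_mem (q i) a ha) _
      (hbR i)) h2
    have h5 : ∃ i, q i ≠ 0 := by
      by_contra h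
      push Not at h
      have h6 : (∑ i, q i • c i) = 0 := Finset.sum_eq_zero fun i _ => by rw [h i, zero_smul]
      rw [h6] at hq
      exact zero_ne_one hq
    obtain ⟨i, hi⟩ := h5
    have h7 : a = (((q i)⁻¹ : ℚ) : W.K) • b i := by
      rw [← sub_eq_zero.1 (h4 i), smul_smul, ← Rat.cast_mul, inv_mul_cancel₀ hi, Rat.cast_one,
        one_smul]
    rw [h7]
    exact alg_smul _ (hb i)
  · have hli : LinearIndependent ℚ (Fin.cons (1 : W.K) c : Fin (n + 1) → W.K) :=
      linearIndependent_finCons.2 ⟨hc, h1⟩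
    have h2 := hR.disjoint (n + 1) (Fin.cons (1 : W.K) c) (Fin.cons a fun i => -b i) hli
      (fun i => by
        refine Fin.cases ?_ (fun i => ?_) i
        · simpa using ha
        · rw [Fin.cons_succ, ← zero_sub]
          exact hR.sub_mem _ (ℛ.cl_mem X p (alg_zero p)) _ (hbR i)) (by
        rw [Fin.sum_univ_succ]
        simp only [Fin.cons_zero, Fin.cons_succ, one_smul, smul_neg, Finset.sum_neg_distrib]
        rw [← hab, add_neg_cancel]) 0
    rw [Fin.cons_zero] at h2
    rw [h2]
    exact alg_zero p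

end

end Pool.Agent.J4H50.VH
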